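import Pool.Agent.X65.KL.Loc

/-!
# Vertices of given levels at which a line of one set crosses a line of another set

The lines are `y = a l * x + B l`, `l : Fin n`. Definitions:

* `ht a B l x = a l * x + B l`, the height of the line `l` above `x`; `cr a B i j`, the abscissa of
  the common point of the lines `i` and `j` (`Pool/Agent/H189R2/Lev/Lines.lean`);
* `Simple a B`: no two of the lines coincide and no three pass through a common point, parallel
  lines are allowed (`Pool/Agent/Results/MP_a08d0a_co/SmoothedLevel.lean`);
* `meets a B S S' W`: the pairs of a line of `S` and a non-parallel line of `S'` such that the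
  number of the lines strictly below their common point is in `W` (`Pool/Agent/X65/KL/Loc.lean`).
-/

set_option autoImplicit false

namespace Pool.Agent.Results.MP_a08d0a_co.LinesOfTwoSets

open Pool.Agent.Results.MP_a08d0a_co.SmoothedLevel (Simple)

open Pool.Agent.X65.KL (meets)

/-- Let `n` lines be given, no two equal and no three concurrent, two sets `S`, `S'` of these lines
and a set `W` of levels less than `K`. At most
`6 (|S| + |S'|) + 26 (|S| |S'| n K |W| ^ 2) ^ (1 / 3)` pairs of a line of `S` and a line of `S'`
meet in a point that has exactly `w` lines strictly below it, for some `w` in `W`. -/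
theorem result : ∀ (n : ℕ) (a B : Fin n → ℝ), Simple a B → ∀ (S S' : Finset (Fin n))
    (W : Finset ℕ) (K : ℕ), (∀ w ∈ W, w < K) →
    ((meets a B S S' W).ncard : ℝ) ≤ 6 * (S.card + S'.card) +
      26 * ((S.card : ℝ) * S'.card * n * K * (W.card : ℝ) ^ 2) ^ (1 / 3 : ℝ) :=
  fun _ _ _ hS S S' W _ hW => Pool.Agent.X65.KL.lines_bound hS S S' W hW

end Pool.Agent.Results.MP_a08d0a_co.LinesOfTwoSets
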