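import Pool.Agent.X65.KL.Mom

/-!
# Means of every order less than three of the complexities of the levels

The lines are `y = a l * x + B l`, `l : Fin n`. Definitions:

* `Simple a B`: no two of the lines coincide and no three pass through a common point (parallel
  lines are allowed); `level a B k x`: the height of the `(k+1)`-st lowest line above `x`;
  `psi a B k`: the number of abscissae near which the `k`-level does not follow a single line, i.e.
  the number of vertices of the `k`-level (`Pool/Agent/Results/MP_a08d0a_co/SmoothedLevel.lean`).
-/

set_option autoImplicit false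

open Finset

namespace Pool.Agent.Results.MP_a08d0a_co.MeansBelowThree

open Pool.Agent.Results.MP_a08d0a_co.SmoothedLevel (Simple psi)

/-- Let `n` lines be given, no two equal and no three concurrent, `K ≤ n` and `0 < p < 3`. The sum
of the `p`-th powers of the numbers of vertices of the `K` lowest levels is at most
`3 / (3 - p) * K * (36 * n) ^ p`. -/
theorem result : ∀ (n : ℕ) (a B : Fin n → ℝ), Simple a B → ∀ K ≤ n, ∀ p : ℝ, 0 < p → p < 3 →
    (∀ k < K, psi a B k ≠ ⊤) ∧
    ∑ k ∈ range K, ((psi a B k).toNat : ℝ) ^ p ≤ 3 / (3 - p) * K * (36 * n) ^ p :=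
  fun _ _ _ hS _ hK _ h0 h1 => Pool.Agent.X65.KL.means hS hK h0 h1

end Pool.Agent.Results.MP_a08d0a_co.MeansBelowThree
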