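import Pool.Agent.Y344.KD.Final

/-!
# The expected complexity of the `k`-level after random deletions

The lines are `y = a l * x + B l`, `l : Fin n`. Definitions:

* `Simple a B`: no two of the lines coincide and no three pass through a common point (parallel
  lines are allowed); `level a B k x`: the height of the `(k+1)`-st lowest line above `x`;
  `psi a B k`: the number of abscissae near which the `k`-level does not follow a single line, i.e.
  the number of vertices of the `k`-level (`Pool/Agent/Results/MP_a08d0a_co/SmoothedLevel.lean`),
* `sub f R`: for a set `R` of indices, the family `f` restricted to `R`, listed in increasing order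
  of the indices (`Pool/Agent/Y344/KD/Lines.lean`); `sub a Dᶜ`, `sub B Dᶜ` are the slopes and the
  intercepts of the lines that remain after the deletion of the lines with index in `D`.
-/

set_option autoImplicit false

open Finset

namespace Pool.Agent.Results.MP_a08d0a_co.RandomDeletions

open Pool.Agent.Results.MP_a08d0a_co.SmoothedLevel (Simple psi)

open Pool.Agent.Y344.KD (sub)

/-- Let `n` lines be given, no two equal and no three concurrent, and delete every line
independently with probability `r`, `0 < r ≤ 1 / 2`. For every `k` the expected number of vertices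
of the `k`-level of the remaining lines is at most `2000 n ((k + 1) / r) ^ (1 / 6)`. -/
theorem result : ∀ (n : ℕ) (a B : Fin n → ℝ), Simple a B → ∀ (k : ℕ) (r : ℝ), 0 < r → r ≤ 1 / 2 →
    (∀ D : Finset (Fin n), k < Dᶜ.card → psi (sub a Dᶜ) (sub B Dᶜ) k ≠ ⊤) ∧
    ∑ D : Finset (Fin n) with k < Dᶜ.card,
      r ^ D.card * (1 - r) ^ (n - D.card) * (psi (sub a Dᶜ) (sub B Dᶜ) k).toNat ≤
      2000 * n * (((k : ℝ) + 1) / r) ^ (1 / 6 : ℝ) :=
  fun _ _ _ hS k _ h0 h1 => Pool.Agent.Y344.KD.random_deletions hS k h0 h1

end Pool.Agent.Results.MP_a08d0a_co.RandomDeletions
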