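import Pool.Agent.X65.ML.Blow

/-!
# Many consecutive levels of high complexity in one arrangement

`height`, `level`, `kLevel`, `IsVertex` and `complexity` are defined in
`Pool/Agent/KLev/Levels.lean` (namespace `KLev.Levels`): a line is a pair (slope, intercept), the
`k`-level is the closure of the set of points on the lines with exactly `k` lines strictly below,
and its complexity is the number of the points where it passes from one line to another.
-/

namespace Pool.Agent.Results.MP_a08d0a_co.SimultaneousLevels

open KLev.Levels

/-- There is `m₀` such that for all `m ≥ m₀` and `j ≥ 1` some set `Γ` of `n = m j` lines has `j`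
consecutive levels each of which has at least `n / 2 * m ^ exp (-3 √(log log m))` vertices. -/
theorem result : ∃ m₀ : ℕ, ∀ m j : ℕ, m₀ ≤ m → 1 ≤ j → ∃ Γ : Finset (ℝ × ℝ), Γ.card = m * j ∧
    ∃ L : ℕ, ∀ i < j, (m : ℝ) * j / 2 *
      (m : ℝ) ^ Real.exp (-3 * √(Real.log (Real.log (m : ℝ)))) ≤ complexity Γ (L + i) :=
  Pool.Agent.X65.ML.main

end Pool.Agent.Results.MP_a08d0a_co.SimultaneousLevels
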